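import Mathlib

/-!
The set-splitting game G(E).

A move in round n records the set `chosen` (this is S_n) together with the two
disjoint sets `left`, `right` into which the mover splits it.
Player A moves in the rounds 0, 2, 4, ..., player B in the rounds 1, 3, 5, ...
In round 0 the set `chosen` is all of E; in round n + 1 the mover first chooses
one of the two parts of the previous move and then splits it.
A wins a play when the intersection of the sets S_n, n at least 1, is empty.
-/

namespace Pool.Agent.Results.MP_053b7f_lc.NoWinUncountable

open Set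

universe u

/-- One move: the chosen set and the two parts into which it is split. -/
structure Move (E : Type u) where
  chosen : Set E
  left : Set E
  right : Set E

/-- The sets which the next mover may choose, given the list of earlier moves
(latest move first): only `E` itself in round 0, later the two parts of the last move. -/
def options {E : Type u} : List (Move E) → Set (Set E)
  | [] => {Set.univ}
  | m :: _ => {m.left, m.right}

/-- `m` is a legal move after the history `h` (latest move first). -/
def LegalMove {E : Type u} (h : List (Move E)) (m : Move E) : Prop :=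
  m.chosen ∈ options h ∧ m.left ∪ m.right = m.chosen ∧ Disjoint m.left m.right

/-- A history (latest move first) is legal when each of its moves is legal. -/
def LegalHistory {E : Type u} : List (Move E) → Prop
  | [] => True
  | m :: h => LegalMove h m ∧ LegalHistory h

/-- The first `n` moves of the infinite play `p`, latest move first. -/
def history {E : Type u} (p : ℕ → Move E) : ℕ → List (Move E)
  | 0 => []
  | n + 1 => p n :: history p n

/-- An infinite play is legal when all its moves are legal. -/
def LegalPlay {E : Type u} (p : ℕ → Move E) : Prop :=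
  ∀ n, LegalMove (history p n) (p n)

/-- Player A wins the play when no point lies in all of S_1, S_2, ... -/
def AWins {E : Type u} (p : ℕ → Move E) : Prop :=
  ⋂ n : ℕ, (p (n + 1)).chosen = ∅

/-- `σ` is a strategy for A: it answers every legal history of even length
(A to move) with a legal move. -/
def IsStrategyA {E : Type u} (σ : List (Move E) → Move E) : Prop :=
  ∀ h, LegalHistory h → Even h.length → LegalMove h (σ h)

/-- `σ` is a winning strategy for A: it is a strategy, and A wins every legal play
in which A follows it. -/
def IsWinningA {E : Type u} (σ : List (Move E) → Move E) : Prop :=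
  IsStrategyA σ ∧
    ∀ p : ℕ → Move E, LegalPlay p → (∀ n, Even n → p n = σ (history p n)) → AWins p

/-! ### Proof -/

section proof

variable {E : Type u}

/-- The part selected by a bit. -/
def part (m : Move E) (b : Bool) : Set E := bif b then m.left else m.right

/-- The move of B coded by `(b, n)`: choose a part by `b`, split it by coordinate `n` of `f`. -/
def bmove (f : E → ℕ → Bool) (m : Move E) (c : Bool × ℕ) : Move E where
  chosen := part m c.1
  left := part m c.1 ∩ {x | f x c.2 = true}
  right := part m c.1 ∩ {x | f x c.2 = false}

/-- The position reached when A follows `σ` and B plays the coded moves. -/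
def pos (σ : List (Move E) → Move E) (f : E → ℕ → Bool) : List (Bool × ℕ) → List (Move E)
  | [] => []
  | c :: cs => bmove f (σ (pos σ f cs)) c :: σ (pos σ f cs) :: pos σ f cs

theorem pos_length (σ : List (Move E) → Move E) (f : E → ℕ → Bool) (cs : List (Bool × ℕ)) :
    (pos σ f cs).length = 2 * cs.length := by
  induction cs with
  | nil => rfl
  | cons c cs ih => simp only [pos, List.length_cons, ih]; ring

theorem bmove_legal (f : E → ℕ → Bool) (m : Move E) (h : List (Move E)) (c : Bool × ℕ) :
    LegalMove (m :: h) (bmove f m c) := by
  refine ⟨?_, ?_, ?_⟩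
  · rcases c with ⟨b, n⟩
    cases b <;> simp [bmove, options, part]
  · ext x
    simp only [bmove, mem_union, mem_inter_iff, mem_ofPred_eq]
    constructor
    · rintro (h | h) <;> exact h.1
    · intro hx
      cases hfx : f x c.2
      · exact Or.inr ⟨hx, rfl⟩
      · exact Or.inl ⟨hx, rfl⟩
  · rw [Set.disjoint_left]
    rintro x ⟨_, h1⟩ ⟨_, h2⟩
    simp only [mem_ofPred_eq] at h1 h2
    rw [h1] at h2
    exact Bool.noConfusion h2

theorem pos_legal {σ : List (Move E) → Move E} (hσ : IsStrategyA σ) (f : E → ℕ → Bool)
    (cs : List (Bool × ℕ)) : LegalHistory (pos σ f cs) := by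
  induction cs with
  | nil => trivial
  | cons c cs ih =>
    refine ⟨bmove_legal f _ _ c, hσ _ ih ?_, ih⟩
    rw [pos_length]; exact even_two_mul _

/-- The points which survive B's choice `b` but are killed by A at every coordinate split. -/
def killed (σ : List (Move E) → Move E) (f : E → ℕ → Bool) (q : List (Bool × ℕ) × Bool) : Set E :=
  {x | x ∈ part (σ (pos σ f q.1)) q.2 ∧ ∀ n, x ∉ (σ (pos σ f ((q.2, n) :: q.1))).chosen}

theorem killed_subsingleton {σ : List (Move E) → Move E} (hσ : IsStrategyA σ) (f : E → ℕ → Bool)
    (q : List (Bool × ℕ) × Bool) : (f '' killed σ f q).Subsingleton := by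
  rintro _ ⟨x, hx, rfl⟩ _ ⟨y, hy, rfl⟩
  by_contra hne
  obtain ⟨n, hn⟩ := Function.ne_iff.mp hne
  have hleg := hσ _ (pos_legal hσ f ((q.2, n) :: q.1)) (by rw [pos_length]; exact even_two_mul _)
  have hx2 := hx.2 n
  have hy2 := hy.2 n
  have hmem := hleg.1
  simp only [pos, options, bmove, mem_insert_iff, mem_singleton_iff] at hmem
  rcases hmem with h | h
  · rw [show (σ (pos σ f ((q.2, n) :: q.1))).chosen = _ from h] at hx2 hy2
    simp only [mem_inter_iff, mem_ofPred_eq, not_and] at hx2 hy2
    have h1 := hx2 hx.1
    have h2 := hy2 hy.1
    simp only [Bool.not_eq_true] at h1 h2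
    exact hn (h1.trans h2.symm)
  · rw [show (σ (pos σ f ((q.2, n) :: q.1))).chosen = _ from h] at hx2 hy2
    simp only [mem_inter_iff, mem_ofPred_eq, not_and] at hx2 hy2
    have h1 := hx2 hx.1
    have h2 := hy2 hy.1
    simp only [Bool.not_eq_false] at h1 h2
    exact hn (h1.trans h2.symm)

/-- An uncountable type has a map to the Cantor set with uncountable range. -/
theorem exists_map (E : Type u) [Uncountable E] :
    ∃ f : E → ℕ → Bool, ¬ (range f).Countable := by
  rcases le_total (Cardinal.lift.{0, u} (Cardinal.mk E)) (Cardinal.lift.{u, 0} (Cardinal.mk (ℕ → Bool)))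
    with h | h
  · obtain ⟨g⟩ := Cardinal.lift_mk_le'.mp h
    refine ⟨g, fun hc => ?_⟩
    have : Countable E := by
      have := hc.to_subtype
      exact (Set.rangeFactorization_injective.mpr g.injective).countable
    exact not_countable (α := E) this
  · obtain ⟨g⟩ := Cardinal.lift_mk_le'.mp h
    have hs : Function.Surjective (Function.invFun g) := Function.invFun_surjective g.injective
    refine ⟨Function.invFun g, fun hc => ?_⟩
    rw [hs.range_eq] at hc
    have h1 : Countable (ℕ → Bool) := Set.countable_univ_iff.mp hc
    have h2 : Cardinal.aleph0 < Cardinal.mk (ℕ → Bool) := by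
      simp only [Cardinal.mk_pi, Cardinal.mk_bool, Cardinal.prod_const, Cardinal.lift_id,
        Cardinal.mk_nat]
      exact Cardinal.cantor _
    exact absurd (Cardinal.mk_le_aleph0_iff.mpr h1) (not_le.mpr h2)

theorem not_winning [Uncountable E] (σ : List (Move E) → Move E) : ¬ IsWinningA σ := by
  rintro ⟨hσ, hwin⟩
  obtain ⟨f, hf⟩ := exists_map E
  -- a point never killed
  obtain ⟨x, hx⟩ : ∃ x : E, ∀ q, x ∉ killed σ f q := by
    by_contra hcon
    push Not at hcon
    apply hf
    have hsub : range f ⊆ ⋃ q, f '' killed σ f q := by
      rintro _ ⟨x, rfl⟩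
      obtain ⟨q, hq⟩ := hcon x
      exact mem_iUnion.mpr ⟨q, x, hq, rfl⟩
    exact (countable_iUnion fun q => (killed_subsingleton hσ f q).countable).mono hsub
  have hstep : ∀ cs : List (Bool × ℕ), x ∈ (σ (pos σ f cs)).chosen →
      ∃ c : Bool × ℕ, x ∈ part (σ (pos σ f cs)) c.1 ∧ x ∈ (σ (pos σ f (c :: cs))).chosen := by
    intro cs hxs
    have hleg := hσ _ (pos_legal hσ f cs) (by rw [pos_length]; exact even_two_mul _)
    have : ∃ b : Bool, x ∈ part (σ (pos σ f cs)) b := by
      rw [← hleg.2.1] at hxs
      rcases hxs with h | h
      · exact ⟨true, h⟩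
      · exact ⟨false, h⟩
    obtain ⟨b, hb⟩ := this
    have hk := hx (cs, b)
    simp only [killed, mem_ofPred_eq, not_and, not_forall, not_not] at hk
    obtain ⟨n, hn⟩ := hk hb
    exact ⟨(b, n), hb, hn⟩
  choose! nxt hn1 hn2 using hstep
  -- the codes of B's moves
  let cs : ℕ → List (Bool × ℕ) := fun k => Nat.rec [] (fun _ l => nxt l :: l) k
  have cs_succ : ∀ k, cs (k + 1) = nxt (cs k) :: cs k := fun k => rfl
  have hin : ∀ k, x ∈ (σ (pos σ f (cs k))).chosen := by
    intro k
    induction k with
    | zero =>
      have := (hσ [] trivial (by simp)).1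
      simp only [options, mem_singleton_iff] at this
      show x ∈ (σ []).chosen
      rw [this]; trivial
    | succ k ih =>
      rw [cs_succ]
      exact hn2 _ ih
  -- the play
  let p : ℕ → Move E := fun n =>
    if Even n then σ (pos σ f (cs (n / 2)))
    else bmove f (σ (pos σ f (cs (n / 2)))) (nxt (cs (n / 2)))
  have p_even : ∀ k, p (2 * k) = σ (pos σ f (cs k)) := by
    intro k
    simp only [p, even_two_mul, if_true]
    congr 4
    omega
  have p_odd : ∀ k, p (2 * k + 1) = bmove f (σ (pos σ f (cs k))) (nxt (cs k)) := by
    intro k
    have h1 : ¬ Even (2 * k + 1) := by simp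
    have h2 : (2 * k + 1) / 2 = k := by omega
    simp only [p, h1, if_false, h2]
  have hist_even : ∀ k, history p (2 * k) = pos σ f (cs k) := by
    intro k
    induction k with
    | zero => rfl
    | succ k ih =>
      show p (2 * k + 1) :: p (2 * k) :: history p (2 * k) = _
      rw [ih, p_odd, p_even, cs_succ]
      rfl
  have hist_odd : ∀ k, history p (2 * k + 1) = σ (pos σ f (cs k)) :: pos σ f (cs k) := by
    intro k
    show p (2 * k) :: history p (2 * k) = _
    rw [hist_even, p_even]
  have hlegal : LegalPlay p := by
    intro n
    rcases Nat.even_or_odd' n with ⟨k, rfl | rfl⟩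
    · rw [hist_even, p_even]
      exact hσ _ (pos_legal hσ f _) (by rw [pos_length]; exact even_two_mul _)
    · rw [hist_odd, p_odd]
      exact bmove_legal f _ _ _
  have hfollow : ∀ n, Even n → p n = σ (history p n) := by
    intro n hn
    obtain ⟨k, rfl⟩ := even_iff_two_dvd.mp hn
    rw [hist_even, p_even]
  have hempty := hwin p hlegal hfollow
  have hxin : x ∈ ⋂ n : ℕ, (p (n + 1)).chosen := by
    rw [mem_iInter]
    intro n
    rcases Nat.even_or_odd' n with ⟨k, rfl | rfl⟩
    · rw [p_odd]
      exact hn1 _ (hin k)
    · rw [show 2 * k + 1 + 1 = 2 * (k + 1) by ring, p_even]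
      exact hin (k + 1)
  unfold AWins at hempty
  rw [hempty] at hxin
  exact hxin

/-- Sanity check of the definitions: on a countable set player A does have a winning
strategy (the case the problem file lists as known). -/
theorem countable_case (E : Type u) [Countable E] :
    ∃ σ : List (Move E) → Move E, IsWinningA σ := by
  classical
  obtain ⟨enc, henc⟩ := exists_injective_nat E
  let pick : List (Move E) → Set E := fun h =>
    match h with
    | [] => Set.univ
    | m :: t => if ∃ x ∈ m.left, 2 * (enc x + 1) = (m :: t).length then m.right else m.left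
  let σ : List (Move E) → Move E := fun h => ⟨pick h, pick h, ∅⟩
  refine ⟨σ, ?_, ?_⟩
  · intro h _ _
    refine ⟨?_, by simp [σ], by simp [σ]⟩
    cases h with
    | nil => simp [σ, pick, options]
    | cons m t =>
      simp only [σ, pick, options]
      split_ifs <;> simp
  · intro p hp hfol
    unfold AWins
    rw [eq_empty_iff_forall_notMem]
    intro x hx
    rw [mem_iInter] at hx
    have hlen : ∀ n, (history p n).length = n := by
      intro n
      induction n with
      | zero => rfl
      | succ n ih => simp [history, ih]
    have h1 : x ∈ (p (2 * enc x + 1 + 1)).chosen := hx (2 * enc x + 1)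
    have hev : Even (2 * enc x + 1 + 1) := ⟨enc x + 1, by ring⟩
    rw [hfol _ hev] at h1
    simp only [σ, pick, history] at h1
    have hl : (p (2 * enc x + 1) :: history p (2 * enc x + 1)).length = 2 * (enc x + 1) := by
      rw [List.length_cons, hlen]; ring
    change x ∈ (if ∃ y ∈ (p (2 * enc x + 1)).left, 2 * (enc y + 1) =
      (p (2 * enc x + 1) :: history p (2 * enc x + 1)).length
      then (p (2 * enc x + 1)).right else (p (2 * enc x + 1)).left) at h1
    have hd := (hp (2 * enc x + 1)).2.2
    split_ifs at h1 with hc
    · obtain ⟨y, hy, hye⟩ := hc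
      rw [hl] at hye
      have : enc y = enc x := by omega
      rw [henc this] at hy
      exact (Set.disjoint_left.mp hd) hy h1
    · exact hc ⟨x, h1, hl.symm⟩

end proof

/-- For every uncountable set `E`, player A has no winning strategy in `G(E)`. -/
theorem result (E : Type u) [Uncountable E] :
    ¬ ∃ σ : List (Move E) → Move E, IsWinningA σ := by
  rintro ⟨σ, hσ⟩
  exact not_winning σ hσ

end Pool.Agent.Results.MP_053b7f_lc.NoWinUncountable
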